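import Pool.Agent.H93.F14.Tools

/-!
# F14, part T7
-/

set_option autoImplicit false
set_option linter.unusedSectionVars false
set_option linter.unusedVariables false

noncomputable section

open Classical

namespace Pool.Agent.H93.F14

open Pool.Agent.H32.F14

variable {V D : Type} [Fintype V] [Fintype D]

/-- the configuration of T7 -/
structure Cfg (G : DG V D) (X Y : Finset V) (c : V) : Prop where
  dXY : Disjoint X Y
  cX : c ∉ X
  cY : c ∉ Y
  degc : G.deg c = 3
  degX : ∀ x ∈ X, G.deg x = 5
  degY : ∀ y ∈ Y, G.deg y = 5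
  ind : G.Ind Y
  out : ∀ d, G.att d ∈ insert c X → G.att (G.inv d) ∈ Y
  card : Y.card = X.card + 2

/-- vertices of `X` without neighbour in `Z` -/
def PI (G : DG V D) (X Z : Finset V) : Finset V :=
  X.filter (fun p => ∀ e, G.att e = p → G.att (G.inv e) ∉ Z)

/-- number of edges between `c` and `Z` -/
def eC (G : DG V D) (c : V) (Z : Finset V) : ℕ :=
  (Finset.univ.filter (fun e => G.att (G.inv e) ∈ Z ∧ G.att e = c)).card

section
variable {G : DG V D} {X Y : Finset V} {c : V}

theorem Cfg.disj (h : Cfg G X Y c) : Disjoint (insert c X) Y := by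
  rw [Finset.disjoint_insert_left]
  exact ⟨h.cY, h.dXY⟩

theorem Cfg.nbsub (h : Cfg G X Y c) {P : Finset V} (hP : P ⊆ insert c X) : nb G P ⊆ Y := by
  intro y hy
  rw [mem_nb] at hy
  obtain ⟨d, h1, h2⟩ := hy
  rw [← h2]
  exact h.out d (hP h1)

theorem ind_mono {N N' : Finset V} (h : G.Ind N) (hs : N' ⊆ N) : G.Ind N' :=
  fun d hd hd' => h d (hs hd) (hs hd')

theorem sum_deg5 {P : Finset V} (h : ∀ x ∈ P, G.deg x = 5) : ∑ p ∈ P, G.deg p = 5 * P.card := by
  rw [Finset.sum_congr rfl h, Finset.sum_const, smul_eq_mul, mul_comm]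

theorem lemA (hA1 : StmtA1) (hC : StmtC) (hG : MinCex G) (h : Cfg G X Y c)
    (P : Finset V) (hP : P ⊆ X) (hne : P.Nonempty) : P.card + 2 ≤ (nb G P).card := by
  have hN : nb G P ⊆ Y := h.nbsub (hP.trans (Finset.subset_insert _ _))
  have hd : Disjoint P (nb G P) := h.dXY.mono hP hN
  have hout : ∀ d, G.att d ∈ P → G.att (G.inv d) ∈ nb G P := fun d hd => mem_nb.2 ⟨d, hd, rfl⟩
  have hind : G.Ind (nb G P) := ind_mono h.ind hN
  have hcnt := card_bdry_bip G P (nb G P) hd hout hind
  rw [sum_deg5 (fun x hx => h.degX x (hP hx)), sum_deg5 (fun x hx => h.degY x (hN hx))] at hcnt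
  by_contra hlt
  rcases Nat.lt_or_ge (nb G P).card (P.card + 1) with h1 | h1
  · -- closed
    have h2 : (G.bdry (P ∪ nb G P)).card = 0 := by omega
    obtain ⟨x, hx⟩ := hne
    have h3 := hA1 V D G hG (P ∪ nb G P) ⟨x, Finset.mem_union_left _ hx⟩ (by
      intro he
      have h4 : c ∈ P ∪ nb G P := by rw [he]; exact Finset.mem_univ _
      rcases Finset.mem_union.1 h4 with h5 | h5
      · exact h.cX (hP h5)
      · exact h.cY (hN h5))
    rw [Finset.card_eq_zero] at h2
    rw [h2] at h3
    exact absurd h3 Finset.not_nonempty_empty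
  · exact hC V D G hG P (nb G P) hne hd (fun x hx => h.degX x (hP hx))
      (fun y hy => h.degY y (hN hy)) hind hout (by omega)

theorem lemB0 (hA5 : StmtA5) (hG : MinCex G) (h : Cfg G X Y c)
    (P : Finset V) (hP : P ⊆ X) : P.card + 2 ≤ (nb G (insert c P)).card := by
  have hP' : insert c P ⊆ insert c X := Finset.insert_subset_insert _ hP
  have hN : nb G (insert c P) ⊆ Y := h.nbsub hP'
  have hd : Disjoint (insert c P) (nb G (insert c P)) := h.disj.mono hP' hN
  have hout : ∀ d, G.att d ∈ insert c P → G.att (G.inv d) ∈ nb G (insert c P) :=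
    fun d hd => mem_nb.2 ⟨d, hd, rfl⟩
  have hind : G.Ind (nb G (insert c P)) := ind_mono h.ind hN
  have hcnt := card_bdry_bip G (insert c P) (nb G (insert c P)) hd hout hind
  rw [Finset.sum_insert (fun hc => h.cX (hP hc)), h.degc,
    sum_deg5 (fun x hx => h.degX x (hP hx)), sum_deg5 (fun x hx => h.degY x (hN hx))] at hcnt
  by_contra hlt
  exact hA5 V D G hG (insert c P ∪ nb G (insert c P)) (by omega)

/-- the smaller configuration -/
theorem Cfg.sub (h : Cfg G X Y c) (P : Finset V) (hP : P ⊆ X)
    (hcard : (nb G (insert c P)).card = P.card + 2) : Cfg G P (nb G (insert c P)) c := by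
  have hP' : insert c P ⊆ insert c X := Finset.insert_subset_insert _ hP
  have hN : nb G (insert c P) ⊆ Y := h.nbsub hP'
  exact ⟨h.dXY.mono hP hN, fun hc => h.cX (hP hc), fun hc => h.cY (hN hc), h.degc,
    fun x hx => h.degX x (hP hx), fun y hy => h.degY y (hN hy), ind_mono h.ind hN,
    fun d hd => mem_nb.2 ⟨d, hd, rfl⟩, hcard⟩

/-- darts at `c` have different other ends -/
theorem card_nb_c (hA7 : StmtA7) (hG : MinCex G) (h : Cfg G X Y c) : (nb G {c}).card = 3 := by
  rw [nb, Finset.card_image_of_injOn]
  · rw [card_dartsOn, Finset.sum_singleton, h.degc]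
  · intro d hd d' hd' he
    rw [Finset.mem_coe, mem_dartsOn, Finset.mem_singleton] at hd hd'
    exact hA7 V D G hG d d' (hd.trans hd'.symm) he

/-- the hypotheses (b) -/
def HB (G : DG V D) (X : Finset V) (c : V) : Prop :=
  ∀ P ⊆ X, P ≠ X → P.card + 3 ≤ (nb G (insert c P)).card

theorem lemC (hA1 : StmtA1) (hA5 : StmtA5) (hA7 : StmtA7) (hC : StmtC) (hG : MinCex G)
    (h : Cfg G X Y c) (hB : HB G X c) (y : V) (hy : y ∈ Y) :
    2 ≤ (toP G y (insert c X)).card := by
  by_contra hlt
  have hle : (toP G y (insert c X)).card ≤ 1 := by omega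
  rw [Finset.card_le_one] at hle
  -- pick q such that every dart from y into insert c X ends in q
  by_cases hemp : (toP G y (insert c X)) = ∅
  · -- y has no inner neighbour
    have h1 : nb G (insert c X) ⊆ Y.erase y := by
      intro z hz
      rw [Finset.mem_erase]
      refine ⟨?_, h.nbsub (Finset.Subset.refl _) hz⟩
      rintro rfl
      rw [mem_nb] at hz
      obtain ⟨d, h2, h3⟩ := hz
      have h4 : G.inv d ∈ toP G z (insert c X) := mem_toP.2 ⟨h3, by rw [G.inv_inv]; exact h2⟩
      rw [hemp] at h4
      exact absurd h4 (Finset.notMem_empty _)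
    have h2 := Finset.card_le_card h1
    rw [Finset.card_erase_of_mem hy, h.card] at h2
    have h3 := lemB0 hA5 hG h X (Finset.Subset.refl _)
    omega
  · obtain ⟨d0, hd0⟩ := Finset.nonempty_iff_ne_empty.2 hemp
    have hd0' := mem_toP.1 hd0
    have huniq : ∀ d, G.att d = y → G.att (G.inv d) ∈ insert c X → d = d0 :=
      fun d h1 h2 => hle d (mem_toP.2 ⟨h1, h2⟩) d0 hd0
    by_cases hq : G.att (G.inv d0) = c
    · -- only neighbour c
      have h1 : nb G X ⊆ Y.erase y := by
        intro z hz
        rw [Finset.mem_erase]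
        refine ⟨?_, h.nbsub (Finset.subset_insert _ _) hz⟩
        rintro rfl
        rw [mem_nb] at hz
        obtain ⟨d, h2, h3⟩ := hz
        have h4 := huniq (G.inv d) h3 (by rw [G.inv_inv]; exact Finset.mem_insert_of_mem h2)
        rw [← h4, G.inv_inv] at hq
        exact h.cX (hq ▸ h2)
      have h2 := Finset.card_le_card h1
      rw [Finset.card_erase_of_mem hy, h.card] at h2
      rcases X.eq_empty_or_nonempty with hX | hX
      · have h3 := card_nb_c hA7 hG h
        have h4 : (nb G {c}).card ≤ Y.card :=
          Finset.card_le_card (h.nbsub (by simp))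
        rw [h.card, hX, Finset.card_empty] at h4
        omega
      · have h3 := lemA hA1 hC hG h X (Finset.Subset.refl _) hX
        omega
    · have hqX : G.att (G.inv d0) ∈ X := by
        rcases Finset.mem_insert.1 hd0'.2 with h1 | h1
        · exact absurd h1 hq
        · exact h1
      have h1 : nb G (insert c (X.erase (G.att (G.inv d0)))) ⊆ Y.erase y := by
        intro z hz
        rw [Finset.mem_erase]
        refine ⟨?_, h.nbsub (Finset.insert_subset_insert _ (Finset.erase_subset _ _)) hz⟩
        rintro rfl
        rw [mem_nb] at hz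
        obtain ⟨d, h2, h3⟩ := hz
        have h4 := huniq (G.inv d) h3 (by
          rw [G.inv_inv]
          exact Finset.insert_subset_insert _ (Finset.erase_subset _ _) h2)
        rw [← h4, G.inv_inv] at h2 hq
        rcases Finset.mem_insert.1 h2 with h5 | h5
        · exact hq h5
        · exact absurd rfl (Finset.mem_erase.1 h5).1
      have h2 := Finset.card_le_card h1
      rw [Finset.card_erase_of_mem hy, h.card] at h2
      have h3 := hB (X.erase (G.att (G.inv d0))) (Finset.erase_subset _ _) (by
        intro he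
        rw [← he] at hqX
        exact absurd rfl (Finset.mem_erase.1 hqX).1)
      rw [Finset.card_erase_of_mem hqX] at h3
      have h4 : 0 < X.card := Finset.card_pos.2 ⟨_, hqX⟩
      omega

theorem nb_PI (h : Cfg G X Y c) (Z : Finset V) : nb G (PI G X Z) ⊆ Y \ Z := by
  intro z hz
  rw [mem_nb] at hz
  obtain ⟨d, h1, h2⟩ := hz
  rw [PI, Finset.mem_filter] at h1
  rw [Finset.mem_sdiff, ← h2]
  exact ⟨h.out d (Finset.mem_insert_of_mem h1.1), h1.2 d rfl⟩

theorem PI_sub (Z : Finset V) : PI G X Z ⊆ X := Finset.filter_subset _ _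

theorem k2 (hA1 : StmtA1) (hC : StmtC) (hG : MinCex G) (h : Cfg G X Y c) (Z : Finset V)
    (hne : (PI G X Z).Nonempty) : (PI G X Z).card + 2 ≤ (Y \ Z).card :=
  (lemA hA1 hC hG h _ (PI_sub Z) hne).trans (Finset.card_le_card (nb_PI h Z))

theorem nb_insert_PI0 (h : Cfg G X Y c) (Z : Finset V) (h0 : eC G c Z = 0) :
    nb G (insert c (PI G X Z)) ⊆ Y \ Z := by
  intro z hz
  rw [mem_nb] at hz
  obtain ⟨d, h1, h2⟩ := hz
  rcases Finset.mem_insert.1 h1 with h3 | h3
  · rw [Finset.mem_sdiff, ← h2]
    refine ⟨h.out d (by rw [h3]; exact Finset.mem_insert_self _ _), fun h4 => ?_⟩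
    rw [eC, Finset.card_eq_zero] at h0
    have h5 : d ∈ (Finset.univ.filter (fun e => G.att (G.inv e) ∈ Z ∧ G.att e = c)) :=
      Finset.mem_filter.2 ⟨Finset.mem_univ _, h4, h3⟩
    rw [h0] at h5
    exact absurd h5 (Finset.notMem_empty _)
  · exact nb_PI h Z (mem_nb.2 ⟨d, h3, h2⟩)

theorem k0 (hA1 : StmtA1) (hA5 : StmtA5) (hA7 : StmtA7) (hC : StmtC) (hG : MinCex G)
    (h : Cfg G X Y c) (hB : HB G X c) (Z : Finset V) (hZ : Z ⊆ Y) (h0 : eC G c Z = 0) :
    (PI G X Z).card + 2 ≤ (Y \ Z).card ∧ (Z.Nonempty → (PI G X Z).card + 3 ≤ (Y \ Z).card) := by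
  have hs := Finset.card_le_card (nb_insert_PI0 h Z h0)
  refine ⟨(lemB0 hA5 hG h _ (PI_sub Z)).trans hs, ?_⟩
  rintro ⟨z, hz⟩
  refine (hB _ (PI_sub Z) ?_).trans hs
  intro he
  have h1 := lemC hA1 hA5 hA7 hC hG h hB z (hZ hz)
  obtain ⟨d, hd⟩ := Finset.card_pos.1 (show 0 < (toP G z (insert c X)).card by omega)
  rw [mem_toP] at hd
  have h2 : z ∈ nb G (insert c (PI G X Z)) := by
    rw [he]
    exact mem_nb.2 ⟨G.inv d, hd.2, by rw [G.inv_inv]; exact hd.1⟩
  exact (Finset.mem_sdiff.1 (nb_insert_PI0 h Z h0 h2)).2 hz

theorem k1aux (h : Cfg G X Y c) (Z : Finset V) (h0 : eC G c Z = 1) :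
    ∃ e0 : D, G.att e0 = c ∧ G.att (G.inv e0) ∈ Z ∧
      (∀ e, G.att e = c → G.att (G.inv e) ∈ Z → e = e0) ∧
      nb G (insert c (PI G X Z)) ⊆ insert (G.att (G.inv e0)) (Y \ Z) := by
  rw [eC, Finset.card_eq_one] at h0
  obtain ⟨e0, he0⟩ := h0
  have hm : ∀ e, (G.att (G.inv e) ∈ Z ∧ G.att e = c) ↔ e = e0 := by
    intro e
    have : e ∈ (Finset.univ.filter (fun e => G.att (G.inv e) ∈ Z ∧ G.att e = c)) ↔ e ∈ ({e0} : Finset D) := by
      rw [he0]
    simpa using this
  have h1 := (hm e0).2 rfl
  refine ⟨e0, h1.2, h1.1, fun e h2 h3 => (hm e).1 ⟨h3, h2⟩, ?_⟩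
  intro z hz
  rw [mem_nb] at hz
  obtain ⟨d, h2, h3⟩ := hz
  rcases Finset.mem_insert.1 h2 with h4 | h4
  · by_cases h5 : z ∈ Z
    · have h6 := (hm d).1 ⟨by rw [h3]; exact h5, h4⟩
      rw [← h3, h6]
      exact Finset.mem_insert_self _ _
    · apply Finset.mem_insert_of_mem
      rw [Finset.mem_sdiff]
      refine ⟨?_, h5⟩
      rw [← h3]
      exact h.out d (by rw [h4]; exact Finset.mem_insert_self _ _)
  · exact Finset.mem_insert_of_mem (nb_PI h Z (mem_nb.2 ⟨d, h4, h3⟩))

theorem k1 (hA1 : StmtA1) (hA5 : StmtA5) (hA7 : StmtA7) (hC : StmtC) (hG : MinCex G)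
    (h : Cfg G X Y c) (hB : HB G X c) (Z : Finset V) (hZ : Z ⊆ Y) (h0 : eC G c Z = 1) :
    (PI G X Z).card + 2 ≤ (Y \ Z).card := by
  obtain ⟨e0, h1, h2, h3, h4⟩ := k1aux h Z h0
  have hs := (Finset.card_le_card h4).trans (Finset.card_insert_le _ _)
  have hne : PI G X Z ≠ X := by
    intro he
    have h5 := lemC hA1 hA5 hA7 hC hG h hB _ (hZ h2)
    obtain ⟨a, ha, b, hb, hab⟩ := Finset.one_lt_card.1 h5
    have key : ∀ d ∈ toP G (G.att (G.inv e0)) (insert c X), d = G.inv e0 := by
      intro d hd
      rw [mem_toP] at hd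
      rcases Finset.mem_insert.1 hd.2 with h6 | h6
      · have := h3 (G.inv d) h6 (by rw [G.inv_inv, hd.1]; exact h2)
        rw [← this, G.inv_inv]
      · rw [← he, PI, Finset.mem_filter] at h6
        have := h6.2 (G.inv d) rfl
        rw [G.inv_inv, hd.1] at this
        exact absurd h2 this
    exact hab ((key a ha).trans (key b hb).symm)
  have := hB _ (PI_sub Z) hne
  omega

/-- boundary darts of the configuration are at `Y` -/
theorem bdry_Y (h : Cfg G X Y c) {b : D} (hb : b ∈ G.bdry (insert c X ∪ Y)) : G.att b ∈ Y := by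
  rw [mem_bdry] at hb
  rcases Finset.mem_union.1 hb.1 with h1 | h1
  · exact absurd (Finset.mem_union_right _ (h.out b h1)) hb.2
  · exact h1

theorem card_bdry7 (h : Cfg G X Y c) : (G.bdry (insert c X ∪ Y)).card = 7 := by
  have hcnt := card_bdry_bip G (insert c X) Y h.disj h.out h.ind
  rw [Finset.sum_insert h.cX, h.degc, sum_deg5 h.degX, sum_deg5 h.degY, h.card] at hcnt
  omega

/-- the closing move -/
theorem close (hGl : StmtGlue) (hBM : StmtBM) (hG : MinCex G) (h : Cfg G X Y c) (f : D → Bool)
    (hf : G.ValidOn (insert c X ∪ Y)ᶜ f) (ε : Bool) (T : Finset D)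
    (hTb : T ⊆ G.bdry (insert c X ∪ Y))
    (hT : ∀ b ∈ G.bdry (insert c X ∪ Y), f b = ε ↔ b ∈ T) (S : Finset V) (hS : S ⊆ Y)
    (hβ : ∀ v ∈ Y, (T.filter (fun t => G.att t = v)).card ≤ 1 + (if v ∈ S then 3 else 0))
    (uc : ℕ) (huc : uc = 1 ∨ uc = 2)
    (hsum : Y.card + 3 * S.card = T.card + X.card + uc)
    (key : ∀ Z ⊆ Y, (PI G X Z).card + uc + (T.filter (fun t => G.att t ∈ Y \ Z)).card ≤
      (Y \ Z).card + 3 * (S ∩ (Y \ Z)).card + min uc (eC G c Z)) : False := by
  set dd : V → ℕ := fun v => if v ∈ Y then (1 + (if v ∈ S then 3 else 0)) -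
    (T.filter (fun t => G.att t = v)).card else 0 with hdd
  set u : V → ℕ := fun v => if v = c then uc else if v ∈ X then 1 else 0 with hu
  have hsumR : ∀ R ⊆ Y, ∑ v ∈ R, dd v + (T.filter (fun t => G.att t ∈ R)).card =
      R.card + 3 * (S ∩ R).card := by
    intro R hR
    have h1 : (T.filter (fun t => G.att t ∈ R)).card =
        ∑ v ∈ R, (T.filter (fun t => G.att t = v)).card := by
      have e1 := Finset.card_eq_sum_card_fiberwise (f := fun e => G.att e)
        (s := T.filter (fun t => G.att t ∈ R)) (t := R) (fun x hx => by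
          have := (Finset.mem_filter.1 (Finset.mem_coe.1 hx)).2
          exact this)
      rw [e1]
      apply Finset.sum_congr rfl
      intro v hv
      congr 1
      ext t
      simp only [Finset.mem_filter]
      constructor
      · rintro ⟨⟨h2, h3⟩, h4⟩; exact ⟨h2, h4⟩
      · rintro ⟨h2, h3⟩; exact ⟨⟨h2, h3 ▸ hv⟩, h3⟩
    have h2 : 3 * (S ∩ R).card = ∑ v ∈ R, (if v ∈ S then 3 else 0) := by
      rw [← Finset.sum_filter, Finset.sum_const, smul_eq_mul, mul_comm]
      congr 2
      ext v
      simp only [Finset.mem_inter, Finset.mem_filter]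
      tauto
    rw [h1, h2, ← Finset.sum_add_distrib, Finset.card_eq_sum_ones, ← Finset.sum_add_distrib]
    apply Finset.sum_congr rfl
    intro v hv
    have h3 := hβ v (hR hv)
    simp only [hdd, hR hv, if_true]
    omega
  have hPsum : ∀ w : V → ℕ, ∑ p ∈ insert c X, w p = w c + ∑ p ∈ X, w p := by
    intro w; rw [Finset.sum_insert h.cX]
  have huX : ∀ x ∈ X, u x = 1 := by
    intro x hx
    have : x ≠ c := fun he => h.cX (he ▸ hx)
    simp [hu, this, hx]
  have huc' : u c = uc := by simp [hu]
  have htot : ∑ v ∈ Y, dd v = ∑ v ∈ insert c X, u v := by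
    rw [hPsum, huc', Finset.sum_congr rfl huX, Finset.sum_const, smul_eq_mul, mul_one]
    have h1 := hsumR Y (Finset.Subset.refl _)
    have h2 : (T.filter (fun t => G.att t ∈ Y)) = T := by
      apply Finset.filter_true_of_mem
      intro t ht
      exact bdry_Y h (hTb ht)
    rw [h2, Finset.inter_eq_left.2 hS] at h1
    omega
  -- boundary darts
  have hfil : ∀ v, ((G.darts v).filter (fun d => d ∈ G.bdry (insert c X ∪ Y) ∧ f d = ε)) =
      T.filter (fun t => G.att t = v) := by
    intro v
    ext d
    simp only [Finset.mem_filter, mem_darts]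
    constructor
    · rintro ⟨h1, h2, h3⟩
      exact ⟨(hT d h2).1 h3, h1⟩
    · rintro ⟨h1, h2⟩
      exact ⟨h2, hTb h1, (hT d (hTb h1)).2 h1⟩
  refine finish hGl hBM G hG (insert c X) Y h.disj f hf ε dd u (fun v hv => by simp [hdd, hv])
    (fun v hv => by
      rw [Finset.mem_insert, not_or] at hv
      simp [hu, hv.1, hv.2]) htot ?_ ?_ ?_
  · intro Z hZ
    have h1 := key Z hZ
    have h2 := hsumR (Y \ Z) Finset.sdiff_subset
    have h3 : ∑ v ∈ Y \ Z, dd v + ∑ v ∈ Z, dd v = ∑ v ∈ Y, dd v := Finset.sum_sdiff hZ
    rw [htot, hPsum, huc', Finset.sum_congr rfl huX, Finset.sum_const, smul_eq_mul, mul_one] at h3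
    rw [hPsum, huc']
    have h4 : X.card ≤ ∑ p ∈ X, min (u p) (Finset.univ.filter
        (fun e => G.att (G.inv e) ∈ Z ∧ G.att e = p)).card + (PI G X Z).card := by
      have h5 : X.card = (X.filter (fun p => ¬ ∀ e, G.att e = p → G.att (G.inv e) ∉ Z)).card +
          (PI G X Z).card := by
        have := Finset.card_filter_add_card_filter_not (s := X)
          (fun p => ∀ e, G.att e = p → G.att (G.inv e) ∉ Z)
        rw [PI]
        omega
      rw [h5]
      apply Nat.add_le_add_right
      rw [Finset.card_eq_sum_ones, Finset.sum_filter]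
      apply Finset.sum_le_sum
      intro p hp
      by_cases h6 : ∀ e, G.att e = p → G.att (G.inv e) ∉ Z
      · rw [if_neg (not_not.2 h6)]
        exact Nat.zero_le _
      · rw [if_pos h6]
        push Not at h6
        obtain ⟨e, h7, h8⟩ := h6
        rw [huX p hp]
        have : 1 ≤ (Finset.univ.filter (fun e => G.att (G.inv e) ∈ Z ∧ G.att e = p)).card := by
          apply Finset.card_pos.2
          exact ⟨e, Finset.mem_filter.2 ⟨Finset.mem_univ _, h8, h7⟩⟩
        exact le_min le_rfl this
    have h5 : (Finset.univ.filter (fun e => G.att (G.inv e) ∈ Z ∧ G.att e = c)).card =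
        eC G c Z := rfl
    rw [h5]
    omega
  · intro p hp
    rw [hfil]
    have h0 : T.filter (fun t => G.att t = p) = ∅ := by
      rw [Finset.filter_eq_empty_iff]
      intro t ht he
      have h1 := bdry_Y h (hTb ht)
      rw [he] at h1
      exact (Finset.disjoint_left.1 h.disj hp) h1
    rw [h0, Finset.card_empty]
    rcases Finset.mem_insert.1 hp with h1 | h1
    · rw [h1, huc', h.degc]
      omega
    · rw [huX p h1]
      left; rfl
  · intro y hy
    rw [hfil]
    have h1 := hβ y hy
    rw [h.degY y hy]
    simp only [hdd, hy, if_true]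
    split_ifs at h1 ⊢ <;> omega

theorem card_inj_filter (G : DG V D) (T : Finset D) (R : Finset V)
    (hinj : ∀ t ∈ T, ∀ t' ∈ T, G.att t = G.att t' → t = t') :
    (T.filter (fun t => G.att t ∈ R)).card ≤ R.card := by
  apply Finset.card_le_card_of_injOn (fun t => G.att t)
  · intro t ht
    exact (Finset.mem_filter.1 (Finset.mem_coe.1 ht)).2
  · intro t ht t' ht' he
    exact hinj t (Finset.mem_filter.1 (Finset.mem_coe.1 ht)).1 t'
      (Finset.mem_filter.1 (Finset.mem_coe.1 ht')).1 he

theorem fin (hGl : StmtGlue) (hGd : StmtGadget) (hA1 : StmtA1) (hA5 : StmtA5) (hA7 : StmtA7)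
    (hC : StmtC) (hBM : StmtBM) (hG : MinCex G) (h : Cfg G X Y c) (hB : HB G X c) (f6 f7 : D)
    (h6 : f6 ∈ G.bdry (insert c X ∪ Y)) (h7 : f7 ∈ G.bdry (insert c X ∪ Y)) (h67 : f6 ≠ f7)
    (hcond : G.att f6 = G.att f7 ∨
      ((∀ b ∈ G.bdry (insert c X ∪ Y), ∀ b' ∈ G.bdry (insert c X ∪ Y),
        G.att b = G.att b' → b = b') ∧
      ∀ P ⊆ X, (nb G (insert c P)).card = P.card + 3 →
        (toP G (G.att f6) (insert c P)).card ≤ 1 → G.att f7 ∉ nb G (insert c P))) : False := by
  have hbig : 5 < (G.dartsOn (insert c X ∪ Y)).card := by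
    rw [card_dartsOn, Finset.sum_union h.disj, Finset.sum_insert h.cX, h.degc,
      sum_deg5 h.degX, sum_deg5 h.degY, h.card]
    omega
  obtain ⟨f, ε, fs, hf, hfs, hs6, hs7, hff, huniq⟩ :=
    gadget57 hGd G hG _ f6 f7 h6 h7 h67 (card_bdry7 h) hbig
  have hy6 := bdry_Y h h6
  have hy7 := bdry_Y h h7
  have hys := bdry_Y h hfs
  by_cases hx : f f6 = ε
  · have hTc : ({f6, f7, fs} : Finset D).card = 3 :=
      Finset.card_eq_three.2 ⟨f6, f7, fs, h67, hs6.symm, hs7.symm, rfl⟩
    have hcf : ∀ (p : D → Prop) (inst : DecidablePred p),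
        (@Finset.filter D p inst ({f6, f7, fs} : Finset D)).card = (if p f6 then 1 else 0) +
          ((if p f7 then 1 else 0) + (if p fs then 1 else 0)) := by
      intro p inst
      rw [Finset.card_filter, Finset.sum_insert, Finset.sum_insert, Finset.sum_singleton]
      · simp only [Finset.mem_singleton]; exact hs7.symm
      · simp only [Finset.mem_insert, Finset.mem_singleton, not_or]; exact ⟨h67, hs6.symm⟩
    refine close hGl hBM hG h f hf ε {f6, f7, fs} ?_ ?_ {G.att f6} ?_ ?_ 2 (Or.inr rfl) ?_ ?_
    · intro t ht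
      simp only [Finset.mem_insert, Finset.mem_singleton] at ht
      rcases ht with rfl | rfl | rfl
      · exact h6
      · exact h7
      · exact hfs
    · intro b hb
      simp only [Finset.mem_insert, Finset.mem_singleton]
      by_cases hb6 : b = f6
      · subst hb6; simp [hx]
      · by_cases hb7 : b = f7
        · subst hb7; simp [← hff, hx]
        · rw [huniq b hb hb6 hb7]; simp [hb6, hb7]
    · simpa using hy6
    · intro v hv
      rw [hcf]
      simp only [Finset.mem_singleton]
      rcases hcond with hc | ⟨hinj, -⟩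
      · rw [← hc]
        by_cases hv6 : G.att f6 = v
        · simp only [hv6, if_true]
          split_ifs <;> omega
        · have hv6' : ¬ v = G.att f6 := fun e => hv6 e.symm
          simp only [hv6, hv6', if_false]
          split_ifs <;> omega
      · by_cases hv6 : G.att f6 = v
        · simp only [hv6, if_true]
          split_ifs <;> omega
        · have hv6' : ¬ v = G.att f6 := fun e => hv6 e.symm
          have h7s : ¬ (G.att f7 = v ∧ G.att fs = v) := by
            rintro ⟨e1, e2⟩
            exact hs7 (hinj fs hfs f7 h7 (e2.trans e1.symm))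
          simp only [hv6, hv6', if_false]
          split_ifs <;> first | omega | (exfalso; tauto)
    · rw [hTc, Finset.card_singleton, h.card]; ring
    · intro Z hZ
      rw [hcf]
      have hS : (({G.att f6} : Finset V) ∩ (Y \ Z)).card = if G.att f6 ∈ Y \ Z then 1 else 0 := by
        split_ifs with h1
        · rw [Finset.singleton_inter_of_mem h1, Finset.card_singleton]
        · rw [Finset.singleton_inter_of_notMem h1, Finset.card_empty]
      rw [hS]
      have e2 := k2 hA1 hC hG h Z
      have e1 := k1 hA1 hA5 hA7 hC hG h hB Z hZ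
      have e0 := k0 hA1 hA5 hA7 hC hG h hB Z hZ
      have hRpos : ∀ v ∈ Y \ Z, 1 ≤ (Y \ Z).card := fun v hv => Finset.card_pos.2 ⟨v, hv⟩
      rcases hcond with hc | ⟨hinj, hfree⟩
      · rw [← hc]
        have hPI : 2 ≤ eC G c Z → (PI G X Z).card = 0 ∨ (PI G X Z).card + 2 ≤ (Y \ Z).card := by
          intro _
          rcases (PI G X Z).eq_empty_or_nonempty with h1 | h1
          · left; rw [h1, Finset.card_empty]
          · right; exact e2 h1
        by_cases hsR : G.att fs ∈ Y \ Z
        · have hpos := hRpos _ hsR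
          by_cases h6R : G.att f6 ∈ Y \ Z
          · simp only [hsR, h6R, if_true]
            rcases Nat.lt_or_ge 1 (eC G c Z) with h1 | h1
            · have := hPI h1; omega
            · rcases Nat.lt_or_ge 0 (eC G c Z) with h2 | h2
              · have := e1 (by omega); omega
              · have := e0 (by omega); omega
          · have hZne : Z.Nonempty := ⟨G.att f6, by
              by_contra hh; exact h6R (Finset.mem_sdiff.2 ⟨hy6, hh⟩)⟩
            simp only [hsR, h6R, if_true, if_false]
            rcases Nat.lt_or_ge 1 (eC G c Z) with h1 | h1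
            · have := hPI h1; omega
            · rcases Nat.lt_or_ge 0 (eC G c Z) with h2 | h2
              · have := e1 (by omega); omega
              · have := (e0 (by omega)).2 hZne; omega
        · have hZne : Z.Nonempty := ⟨G.att fs, by
              by_contra hh; exact hsR (Finset.mem_sdiff.2 ⟨hys, hh⟩)⟩
          simp only [hsR, if_false]
          rcases Nat.lt_or_ge 1 (eC G c Z) with h1 | h1
          · have := hPI h1
            split_ifs <;> omega
          · rcases Nat.lt_or_ge 0 (eC G c Z) with h2 | h2
            · have := e1 (by omega)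
              split_ifs <;> omega
            · have := (e0 (by omega)).2 hZne
              split_ifs <;> omega
      · have hPI : 2 ≤ eC G c Z → (PI G X Z).card = 0 ∨ (PI G X Z).card + 2 ≤ (Y \ Z).card := by
          intro _
          rcases (PI G X Z).eq_empty_or_nonempty with h1 | h1
          · left; rw [h1, Finset.card_empty]
          · right; exact e2 h1
        have h7s : (if G.att f7 ∈ Y \ Z then 1 else 0) + (if G.att fs ∈ Y \ Z then 1 else 0) ≤
            (Y \ Z).card := by
          have h1 := card_inj_filter G {f7, fs} (Y \ Z) (by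
            intro t ht t' ht' he
            simp only [Finset.mem_insert, Finset.mem_singleton] at ht ht'
            apply hinj t _ t' _ he
            · rcases ht with rfl | rfl
              · exact h7
              · exact hfs
            · rcases ht' with rfl | rfl
              · exact h7
              · exact hfs)
          rw [Finset.card_filter, Finset.sum_insert, Finset.sum_singleton] at h1
          · exact h1
          · simp only [Finset.mem_singleton]; exact hs7.symm
        by_cases h6R : G.att f6 ∈ Y \ Z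
        · simp only [h6R, if_true]
          rcases Nat.lt_or_ge 1 (eC G c Z) with h1 | h1
          · have := hPI h1
            revert h7s
            split_ifs <;> intro h7s <;> omega
          · rcases Nat.lt_or_ge 0 (eC G c Z) with h2 | h2
            · have := e1 (by omega)
              split_ifs <;> omega
            · have := (e0 (by omega)).1
              split_ifs <;> omega
        · have hZy : G.att f6 ∈ Z := by
            by_contra hh; exact h6R (Finset.mem_sdiff.2 ⟨hy6, hh⟩)
          have hZne : Z.Nonempty := ⟨_, hZy⟩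
          simp only [h6R, if_false]
          -- darts from y to insert c PI
          have hto : (toP G (G.att f6) (insert c (PI G X Z))).card ≤ 1 := by
            rw [Finset.card_le_one]
            have hkey : ∀ d ∈ toP G (G.att f6) (insert c (PI G X Z)),
                G.att d = G.att f6 ∧ G.att (G.inv d) = c := by
              intro d hd
              rw [mem_toP] at hd
              refine ⟨hd.1, ?_⟩
              rcases Finset.mem_insert.1 hd.2 with h3 | h3
              · exact h3
              · rw [PI, Finset.mem_filter] at h3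
                have := h3.2 (G.inv d) rfl
                rw [G.inv_inv, hd.1] at this
                exact absurd hZy this
            intro d hd d' hd'
            have k1 := hkey d hd
            have k2 := hkey d' hd'
            exact hA7 V D G hG d d' (k1.1.trans k2.1.symm) (k1.2.trans k2.2.symm)
          rcases Nat.lt_or_ge 1 (eC G c Z) with h1 | h1
          · have := hPI h1
            revert h7s
            split_ifs <;> intro h7s <;> omega
          · rcases Nat.lt_or_ge 0 (eC G c Z) with h2 | h2
            · have hk := e1 (by omega)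
              by_contra hcon
              -- all equalities
              have h7R : G.att f7 ∈ Y \ Z := by
                by_contra hh
                apply hcon
                simp only [hh, if_false]
                split_ifs <;> omega
              have hsR : G.att fs ∈ Y \ Z := by
                by_contra hh
                apply hcon
                simp only [hh, if_false]
                split_ifs <;> omega
              simp only [h7R, hsR, if_true] at hcon
              obtain ⟨e0', g1, g2, g3, g4⟩ := k1aux h Z (by omega)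
              have hne : PI G X Z ≠ X := by
                intro he
                have h5 := k1 hA1 hA5 hA7 hC hG h hB Z hZ (by omega)
                have h6' := lemC hA1 hA5 hA7 hC hG h hB _ (hZ g2)
                obtain ⟨a, ha, b, hb, hab⟩ := Finset.one_lt_card.1 h6'
                have key : ∀ d ∈ toP G (G.att (G.inv e0')) (insert c X), d = G.inv e0' := by
                  intro d hd
                  rw [mem_toP] at hd
                  rcases Finset.mem_insert.1 hd.2 with h6 | h6
                  · have := g3 (G.inv d) h6 (by rw [G.inv_inv, hd.1]; exact g2)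
                    rw [← this, G.inv_inv]
                  · rw [← he, PI, Finset.mem_filter] at h6
                    have := h6.2 (G.inv d) rfl
                    rw [G.inv_inv, hd.1] at this
                    exact absurd g2 this
                exact hab ((key a ha).trans (key b hb).symm)
              have hb3 := hB _ (PI_sub Z) hne
              have hle := Finset.card_le_card g4
              have hle2 := Finset.card_insert_le (G.att (G.inv e0')) (Y \ Z)
              have heq : nb G (insert c (PI G X Z)) = insert (G.att (G.inv e0')) (Y \ Z) := by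
                apply Finset.eq_of_subset_of_card_le g4
                omega
              have hfr := hfree (PI G X Z) (PI_sub Z) (by omega) hto
              rw [heq] at hfr
              exact hfr (Finset.mem_insert_of_mem h7R)
            · have hk := (e0 (by omega)).2 hZne
              by_contra hcon
              have h7R : G.att f7 ∈ Y \ Z := by
                by_contra hh
                apply hcon
                simp only [hh, if_false]
                split_ifs <;> omega
              have hsR : G.att fs ∈ Y \ Z := by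
                by_contra hh
                apply hcon
                simp only [hh, if_false]
                split_ifs <;> omega
              simp only [h7R, hsR, if_true] at hcon
              have g4 := nb_insert_PI0 h Z (by omega)
              have hle := Finset.card_le_card g4
              have hne : PI G X Z ≠ X := by
                intro he
                have h5 := lemC hA1 hA5 hA7 hC hG h hB _ hy6
                rw [← he] at h5
                omega
              have hb3 := hB _ (PI_sub Z) hne
              have heq : nb G (insert c (PI G X Z)) = Y \ Z := by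
                apply Finset.eq_of_subset_of_card_le g4
                omega
              have hfr := hfree (PI G X Z) (PI_sub Z) (by omega) hto
              rw [heq] at hfr
              exact hfr h7R
  · refine close hGl hBM hG h f hf ε {fs} ?_ ?_ ∅ (Finset.empty_subset _) ?_ 1 (Or.inl rfl) ?_ ?_
    · simpa using hfs
    · intro b hb
      simp only [Finset.mem_singleton]
      by_cases hb6 : b = f6
      · subst hb6; simp [hx, hs6.symm]
      · by_cases hb7 : b = f7
        · subst hb7; simp [← hff, hx, hs7.symm]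
        · exact huniq b hb hb6 hb7
    · intro v hv
      refine (Finset.card_filter_le _ _).trans ?_
      rw [Finset.card_singleton]
      exact Nat.le_add_right _ _
    · rw [Finset.card_singleton, Finset.card_empty, h.card]; ring
    · intro Z hZ
      rw [Finset.empty_inter, Finset.card_empty]
      have e2 := k2 hA1 hC hG h Z
      have e1 := k1 hA1 hA5 hA7 hC hG h hB Z hZ
      have e0 := k0 hA1 hA5 hA7 hC hG h hB Z hZ
      have t1 : (({fs} : Finset D).filter (fun t => G.att t ∈ Y \ Z)).card ≤ 1 :=
        (Finset.card_filter_le _ _).trans (by rw [Finset.card_singleton])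
      have t2 := card_inj_filter G {fs} (Y \ Z) (by
        intro t ht t' ht' _
        rw [Finset.mem_singleton] at ht ht'
        rw [ht, ht'])
      rcases Nat.lt_or_ge 0 (eC G c Z) with h2 | h2
      · rcases (PI G X Z).eq_empty_or_nonempty with h1 | h1
        · rw [h1, Finset.card_empty]
          omega
        · have := e2 h1
          omega
      · have := (e0 (by omega)).1
        omega

theorem ind_X (h : Cfg G X Y c) {P : Finset V} (hP : P ⊆ X) : G.Ind P := by
  intro d hd hd'
  exact (Finset.disjoint_left.1 h.dXY (hP hd')) (h.out d (Finset.mem_insert_of_mem (hP hd)))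

theorem t7_step (hGl : StmtGlue) (hGd : StmtGadget) (hA1 : StmtA1) (hA5 : StmtA5)
    (hA7 : StmtA7) (hC : StmtC) (hK : StmtK) (hBM : StmtBM) (hG : MinCex G) (h : Cfg G X Y c)
    (hB : HB G X c) : False := by
  by_cases H1 : ∃ f6 ∈ G.bdry (insert c X ∪ Y), ∃ f7 ∈ G.bdry (insert c X ∪ Y),
      f6 ≠ f7 ∧ G.att f6 = G.att f7
  · obtain ⟨f6, h6, f7, h7, h67, he⟩ := H1
    exact fin hGl hGd hA1 hA5 hA7 hC hBM hG h hB f6 f7 h6 h7 h67 (Or.inl he)
  have hinj : ∀ b ∈ G.bdry (insert c X ∪ Y), ∀ b' ∈ G.bdry (insert c X ∪ Y),
      G.att b = G.att b' → b = b' := by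
    intro b hb b' hb' he
    by_contra hne
    exact H1 ⟨b, hb, b', hb', hne, he⟩
  obtain ⟨f6, h6⟩ : (G.bdry (insert c X ∪ Y)).Nonempty := by
    apply Finset.card_pos.1
    rw [card_bdry7 h]; norm_num
  have hy : G.att f6 ∈ Y := bdry_Y h h6
  have hf6 := (mem_bdry.1 h6).2
  have hclass : ∀ d, G.att d ∈ Y → G.att (G.inv d) ∈ insert c X ∨
      d ∈ G.bdry (insert c X ∪ Y) := by
    intro d hd
    by_cases h1 : G.att (G.inv d) ∈ insert c X
    · exact Or.inl h1
    · right
      rw [mem_bdry]
      refine ⟨Finset.mem_union_right _ hd, fun h2 => ?_⟩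
      rcases Finset.mem_union.1 h2 with h3 | h3
      · exact h1 h3
      · exact h.ind d hd h3
  have hcard4 : (toP G (G.att f6) (insert c X)).card = 4 := by
    have h1 : G.darts (G.att f6) = insert f6 (toP G (G.att f6) (insert c X)) := by
      ext d
      rw [mem_darts, Finset.mem_insert, mem_toP]
      constructor
      · intro h2
        rcases hclass d (h2 ▸ hy) with h3 | h3
        · exact Or.inr ⟨h2, h3⟩
        · exact Or.inl (hinj d h3 f6 h6 h2)
      · rintro (h2 | h2)
        · rw [h2]
        · exact h2.1
    have h2 : f6 ∉ toP G (G.att f6) (insert c X) := by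
      intro h3
      exact hf6 (Finset.mem_union_left _ (mem_toP.1 h3).2)
    have h3 := h.degY _ hy
    rw [DG.deg, h1, Finset.card_insert_of_notMem h2] at h3
    omega
  set Fy : Finset (Finset V) := X.powerset.filter (fun P =>
    (nb G (insert c P)).card = P.card + 3 ∧ (toP G (G.att f6) (insert c P)).card ≤ 1) with hFy
  have memFy : ∀ P, P ∈ Fy ↔ P ⊆ X ∧ (nb G (insert c P)).card = P.card + 3 ∧
      (toP G (G.att f6) (insert c P)).card ≤ 1 := by
    intro P
    rw [hFy, Finset.mem_filter, Finset.mem_powerset]
  have hempty : (∅ : Finset V) ∈ Fy := by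
    rw [memFy]
    refine ⟨Finset.empty_subset _, ?_, ?_⟩
    · rw [Finset.card_empty]
      exact card_nb_c hA7 hG h
    · rw [Finset.card_le_one]
      intro d hd d' hd'
      rw [mem_toP] at hd hd'
      have e1 : G.att (G.inv d) = c := by simpa using hd.2
      have e2 : G.att (G.inv d') = c := by simpa using hd'.2
      exact hA7 V D G hG d d' (hd.1.trans hd'.1.symm) (e1.trans e2.symm)
  have hunion : ∀ P1 ∈ Fy, ∀ P2 ∈ Fy, P1 ∪ P2 ∈ Fy := by
    intro P1 hP1 P2 hP2
    rw [memFy] at hP1 hP2 ⊢
    obtain ⟨a1, b1, c1⟩ := hP1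
    obtain ⟨a2, b2, c2⟩ := hP2
    have hUs : P1 ∪ P2 ⊆ X := Finset.union_subset a1 a2
    have hIs : P1 ∩ P2 ⊆ X := Finset.inter_subset_left.trans a1
    have hU : insert c (P1 ∪ P2) = insert c P1 ∪ insert c P2 := by
      ext v; simp only [Finset.mem_insert, Finset.mem_union]; tauto
    have hsplit : ∀ d ∈ toP G (G.att f6) (insert c (P1 ∪ P2)),
        d ∈ toP G (G.att f6) (insert c P1) ∨ d ∈ toP G (G.att f6) (insert c P2) := by
      intro d hd
      rw [hU, mem_toP] at hd
      rcases Finset.mem_union.1 hd.2 with h1 | h1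
      · exact Or.inl (mem_toP.2 ⟨hd.1, h1⟩)
      · exact Or.inr (mem_toP.2 ⟨hd.1, h1⟩)
    have hneU : P1 ∪ P2 ≠ X := by
      intro he
      have h1 : toP G (G.att f6) (insert c X) ⊆
          toP G (G.att f6) (insert c P1) ∪ toP G (G.att f6) (insert c P2) := by
        rw [← he]
        intro d hd
        exact Finset.mem_union.2 (hsplit d hd)
      have h2 := (Finset.card_le_card h1).trans (Finset.card_union_le _ _)
      omega
    have hneI : P1 ∩ P2 ≠ X := by
      intro he
      apply hneU
      apply Finset.Subset.antisymm hUs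
      rw [← he]
      exact Finset.inter_subset_left.trans Finset.subset_union_left
    have hBU := hB _ hUs hneU
    have hBI := hB _ hIs hneI
    have hnU : nb G (insert c (P1 ∪ P2)) = nb G (insert c P1) ∪ nb G (insert c P2) := by
      rw [hU, nb_union]
    have hnI : nb G (insert c (P1 ∩ P2)) ⊆ nb G (insert c P1) ∩ nb G (insert c P2) := by
      apply Finset.subset_inter
      · exact nb_mono (Finset.insert_subset_insert _ Finset.inter_subset_left)
      · exact nb_mono (Finset.insert_subset_insert _ Finset.inter_subset_right)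
    have hcI := Finset.card_le_card hnI
    have hc1 := Finset.card_union_add_card_inter (nb G (insert c P1)) (nb G (insert c P2))
    have hc2 := Finset.card_union_add_card_inter P1 P2
    rw [hnU] at hBU
    have heqI : nb G (insert c (P1 ∩ P2)) = nb G (insert c P1) ∩ nb G (insert c P2) := by
      apply Finset.eq_of_subset_of_card_le hnI
      omega
    refine ⟨hUs, by rw [hnU]; omega, ?_⟩
    rw [Finset.card_le_one] at c1 c2 ⊢
    have hmix : ∀ d ∈ toP G (G.att f6) (insert c P1), ∀ d' ∈ toP G (G.att f6) (insert c P2),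
        d = d' := by
      intro d hd d' hd'
      have hd1 := mem_toP.1 hd
      have hd2 := mem_toP.1 hd'
      have hyI : G.att f6 ∈ nb G (insert c (P1 ∩ P2)) := by
        rw [heqI, Finset.mem_inter]
        exact ⟨mem_nb.2 ⟨G.inv d, hd1.2, by rw [G.inv_inv]; exact hd1.1⟩,
          mem_nb.2 ⟨G.inv d', hd2.2, by rw [G.inv_inv]; exact hd2.1⟩⟩
      rw [mem_nb] at hyI
      obtain ⟨e, he1, he2⟩ := hyI
      have k1 := c1 (G.inv e) (mem_toP.2 ⟨he2, by
        rw [G.inv_inv]
        exact Finset.insert_subset_insert _ Finset.inter_subset_left he1⟩) d hd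
      have k2 := c2 (G.inv e) (mem_toP.2 ⟨he2, by
        rw [G.inv_inv]
        exact Finset.insert_subset_insert _ Finset.inter_subset_right he1⟩) d' hd'
      exact k1.symm.trans k2
    intro d hd d' hd'
    rcases hsplit d hd with h1 | h1 <;> rcases hsplit d' hd' with h2 | h2
    · exact c1 d h1 d' h2
    · exact hmix d h1 d' h2
    · exact (hmix d' h2 d h1).symm
    · exact c2 d h1 d' h2
  obtain ⟨Py, hPy, hmax⟩ := Finset.exists_max_image Fy (fun P => P.card) ⟨∅, hempty⟩
  have hlargest : ∀ P ∈ Fy, P ⊆ Py := by
    intro P hP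
    have h1 := hmax _ (hunion P hP Py hPy)
    have h2 : Py = P ∪ Py :=
      Finset.eq_of_subset_of_card_le Finset.subset_union_right h1
    rw [h2]
    exact Finset.subset_union_left
  by_cases H2 : ∃ f7 ∈ G.bdry (insert c X ∪ Y), G.att f7 ≠ G.att f6 ∧
      G.att f7 ∉ nb G (insert c Py)
  · obtain ⟨f7, h7, hne, hnot⟩ := H2
    refine fin hGl hGd hA1 hA5 hA7 hC hBM hG h hB f6 f7 h6 h7 (fun he => hne (by rw [he]))
      (Or.inr ⟨hinj, ?_⟩)
    intro P hP h1 h2 h3
    have h4 := hlargest P ((memFy P).2 ⟨hP, h1, h2⟩)
    exact hnot (nb_mono (Finset.insert_subset_insert _ h4) h3)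
  · push Not at H2
    obtain ⟨hPyX, hPyc, hPyt⟩ := (memFy Py).1 hPy
    have hNs : nb G (insert c Py) ⊆ Y := h.nbsub (Finset.insert_subset_insert _ hPyX)
    have hAc : (Y \ nb G (insert c Py)).card + (Py.card + 3) = X.card + 2 := by
      rw [← hPyc, ← h.card]
      exact Finset.card_sdiff_add_card_eq_card hNs
    have hPc : (X \ Py).card + Py.card = X.card := Finset.card_sdiff_add_card_eq_card hPyX
    have hdisj : Disjoint (Y \ nb G (insert c Py)) (X \ Py) :=
      (h.dXY.mono Finset.sdiff_subset Finset.sdiff_subset).symm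
    have hd5A : ∀ x ∈ Y \ nb G (insert c Py), G.deg x = 5 :=
      fun x hx => h.degY x (Finset.sdiff_subset hx)
    have hd5P : ∀ x ∈ X \ Py, G.deg x = 5 := fun x hx => h.degX x (Finset.sdiff_subset hx)
    have hindP : G.Ind (X \ Py) := ind_X h Finset.sdiff_subset
    have hgo : ∀ d, G.att d ∈ Y \ nb G (insert c Py) → d ≠ f6 → G.att (G.inv d) ∈ X \ Py := by
      intro d hd hne
      rw [Finset.mem_sdiff] at hd
      rcases hclass d hd.1 with h1 | h1
      · have h2 : G.att (G.inv d) ∉ insert c Py := by
          intro h3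
          exact hd.2 (mem_nb.2 ⟨G.inv d, h3, by rw [G.inv_inv]⟩)
        rw [Finset.mem_insert, not_or] at h2
        rw [Finset.mem_sdiff]
        refine ⟨?_, h2.2⟩
        rcases Finset.mem_insert.1 h1 with h3 | h3
        · exact absurd h3 h2.1
        · exact h3
      · by_cases h2 : G.att d = G.att f6
        · exact absurd (hinj d h1 f6 h6 h2) hne
        · exact absurd (H2 d h1 h2) hd.2
    by_cases hyA : G.att f6 ∈ Y \ nb G (insert c Py)
    · exact hK V D G hG (Y \ nb G (insert c Py)) (X \ Py) hdisj hd5A hd5P hindP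
        ⟨f6, hyA, fun h1 => hf6 (Finset.mem_union_left _
          (Finset.mem_insert_of_mem (Finset.sdiff_subset h1))), hgo⟩ (by omega)
    · have hgo' : ∀ d, G.att d ∈ Y \ nb G (insert c Py) → G.att (G.inv d) ∈ X \ Py := by
        intro d hd
        apply hgo d hd
        rintro rfl
        exact hyA hd
      rcases (Y \ nb G (insert c Py)).eq_empty_or_nonempty with hE | hE
      · have hP1 : (X \ Py).card = 1 := by
          rw [hE, Finset.card_empty] at hAc
          omega
        have h1 : toP G (G.att f6) (insert c X) ⊆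
            toP G (G.att f6) (insert c Py) ∪ toP G (G.att f6) (X \ Py) := by
          intro d hd
          rw [mem_toP] at hd
          rw [Finset.mem_union, mem_toP, mem_toP]
          by_cases h2 : G.att (G.inv d) ∈ insert c Py
          · exact Or.inl ⟨hd.1, h2⟩
          · right
            refine ⟨hd.1, ?_⟩
            rw [Finset.mem_insert, not_or] at h2
            rw [Finset.mem_sdiff]
            refine ⟨?_, h2.2⟩
            rcases Finset.mem_insert.1 hd.2 with h3 | h3
            · exact absurd h3 h2.1
            · exact h3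
        have h2 := (Finset.card_le_card h1).trans (Finset.card_union_le _ _)
        have h3 : (toP G (G.att f6) (X \ Py)).card ≤ (X \ Py).card := by
          apply Finset.card_le_card_of_injOn (fun d => G.att (G.inv d))
          · intro d hd
            exact (mem_toP.1 (Finset.mem_coe.1 hd)).2
          · intro d hd d' hd' he
            have e1 := mem_toP.1 (Finset.mem_coe.1 hd)
            have e2 := mem_toP.1 (Finset.mem_coe.1 hd')
            exact hA7 V D G hG d d' (e1.1.trans e2.1.symm) he
        omega
      · exact hC V D G hG _ _ hE hdisj hd5A hd5P hindP hgo' (by omega)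

end

/-- T7 -/
theorem t7 (hGl : StmtGlue) (hGd : StmtGadget) (hA1 : StmtA1) (hA5 : StmtA5) (hA7 : StmtA7)
    (hC : StmtC) (hK : StmtK) (hBM : StmtBM) : StmtT7 := by
  intro V D _ _ G hG
  suffices H : ∀ n : ℕ, ∀ (X Y : Finset V) (c : V), X.card = n → Cfg G X Y c → False by
    intro X Y c h1 h2 h3 h4 h5 h6 h7 h8 h9
    exact H X.card X Y c rfl ⟨h1, h2, h3, h4, h5, h6, h7, h8, h9⟩
  intro n
  induction n using Nat.strong_induction_on with
  | _ n ih =>
  intro X Y c hn h
  have hB : HB G X c := by
    intro P hP hne
    have h0 := lemB0 hA5 hG h P hP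
    by_contra hlt
    have hc : (nb G (insert c P)).card = P.card + 2 := by omega
    have hlt' : P.card < n := by
      rw [← hn]
      exact Finset.card_lt_card (Finset.ssubset_iff_subset_ne.2 ⟨hP, hne⟩)
    exact ih P.card hlt' P _ c rfl (h.sub P hP hc)
  exact t7_step hGl hGd hA1 hA5 hA7 hC hK hBM hG h hB

end Pool.Agent.H93.F14
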