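import Mathlib
import Pool.Agent.H32.F14.Iface

/-!
# F14, tools of helper93: finishing by a b-matching, the gadget for 7 boundary darts, counting.
-/

set_option autoImplicit false

noncomputable section

open Classical

namespace Pool.Agent.H93.F14

open Pool.Agent.H32.F14

set_option linter.unusedSectionVars false
set_option linter.unusedVariables false

variable {V D : Type} [Fintype V] [Fintype D]

theorem mem_darts {G : DG V D} {v : V} {d : D} : d ∈ G.darts v ↔ G.att d = v := by
  simp [DG.darts]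

theorem mem_bdry {G : DG V D} {K : Finset V} {d : D} :
    d ∈ G.bdry K ↔ G.att d ∈ K ∧ G.att (G.inv d) ∉ K := by
  simp [DG.bdry]

theorem mem_dartsOn {G : DG V D} {K : Finset V} {d : D} :
    d ∈ G.dartsOn K ↔ G.att d ∈ K := by
  simp [DG.dartsOn]

theorem inv_inj (G : DG V D) {d d' : D} (h : G.inv d = G.inv d') : d = d' := by
  rw [← G.inv_inv d, h, G.inv_inv]

theorem card_dartsOn (G : DG V D) (K : Finset V) :
    (G.dartsOn K).card = ∑ v ∈ K, G.deg v := by
  have h : G.dartsOn K = K.biUnion G.darts := by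
    ext d
    simp [mem_dartsOn, mem_darts]
  rw [h, Finset.card_biUnion]
  · rfl
  · intro x _ y _ hxy
    show Disjoint (G.darts x) (G.darts y)
    rw [Finset.disjoint_left]
    intro d hd hd'
    rw [mem_darts] at hd hd'
    exact hxy (hd.symm.trans hd')

/-- closing with a set of inner darts -/
theorem glue_set (hGl : StmtGlue) (G : DG V D) (hG : MinCex G) (K : Finset V) (f : D → Bool)
    (hf : G.ValidOn Kᶜ f) (ε : Bool) (FI : Finset D) (hFI : ∀ d ∈ FI, G.att d ∈ K)
    (hinv : ∀ d ∈ FI, G.inv d ∈ FI)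
    (hdeg : ∀ v ∈ K,
      ((G.darts v).filter (fun d => d ∈ FI ∨ (d ∈ G.bdry K ∧ f d = ε))).card = 1 ∨
      ((G.darts v).filter (fun d => d ∈ FI ∨ (d ∈ G.bdry K ∧ f d = ε))).card + 1 = G.deg v) :
    False := by
  apply hG.nosol
  set g : D → Bool := fun d => if d ∈ FI then ε else
    if G.att d ∈ K ∧ G.att (G.inv d) ∈ K then !ε else f d with hg
  have hiff : ∀ d, d ∈ FI ↔ G.inv d ∈ FI := by
    intro d
    refine ⟨hinv d, fun h => ?_⟩
    have := hinv _ h
    rwa [G.inv_inv] at this
  have hFI2 : ∀ d ∈ FI, G.att (G.inv d) ∈ K := fun d hd => hFI _ (hinv d hd)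
  have hval : ∀ d, G.att d ∈ K → (g d = ε ↔ (d ∈ FI ∨ (d ∈ G.bdry K ∧ f d = ε))) := by
    intro d hd
    rw [hg]
    by_cases h1 : d ∈ FI
    · simp [h1]
    · by_cases h2 : G.att (G.inv d) ∈ K
      · simp [h1, h2, hd, mem_bdry]
      · simp [h1, h2, hd, mem_bdry]
  refine hGl V D G K g f ?_ hf ?_
  · refine ⟨?_, ?_⟩
    · intro d hd
      rw [hg]
      by_cases h1 : d ∈ FI
      · simp [h1, (hiff d).1 h1]
      · have h1' : G.inv d ∉ FI := fun h => h1 ((hiff d).2 h)
        by_cases h2 : G.att (G.inv d) ∈ K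
        · simp [h1, h1', h2, hd, G.inv_inv]
        · have h3 := hf.1 (G.inv d) (by simpa using h2)
          rw [G.inv_inv] at h3
          simp only [h1, h1', h2, hd, G.inv_inv, if_false, and_false, false_and]
          exact h3.symm
    · intro v hv
      have hk := hdeg v hv
      have hcnt : ((G.darts v).filter (fun d => g d = ε)).card =
          ((G.darts v).filter (fun d => d ∈ FI ∨ (d ∈ G.bdry K ∧ f d = ε))).card := by
        congr 1
        apply Finset.filter_congr
        intro d hd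
        rw [mem_darts] at hd
        exact hval d (hd ▸ hv)
      rw [← hcnt] at hk
      have hsplit : ((G.darts v).filter (fun d => g d = true)).card +
          ((G.darts v).filter (fun d => g d = false)).card = G.deg v := by
        have := Finset.card_filter_add_card_filter_not (s := G.darts v) (fun d => g d = true)
        simpa [DG.deg] using this
      unfold DG.OkAt DG.ones
      cases ε
      · rcases hk with h | h
        · right; omega
        · left; omega
      · exact hk
  · intro b hb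
    rw [mem_bdry] at hb
    have h1 : b ∉ FI := fun h => hb.2 (hFI2 b h)
    rw [hg]
    simp [h1, hb.2]

/-- realisation by a b-matching -/
theorem realise (hBM : StmtBM) (G : DG V D) (dd u : V → ℕ)
    (htot : ∑ v, dd v = ∑ v, u v)
    (cond : ∀ Z : Finset V, ∑ x ∈ Z, dd x ≤
      ∑ p, min (u p) (Finset.univ.filter (fun e => G.att (G.inv e) ∈ Z ∧ G.att e = p)).card) :
    ∃ F : Finset D, (∀ y, (F.filter (fun e => G.att (G.inv e) = y)).card = dd y) ∧
      ∀ p, (F.filter (fun e => G.att e = p)).card = u p := by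
  obtain ⟨F, h1, h2⟩ := hBM V V D (fun e => G.att (G.inv e)) G.att dd u cond
  refine ⟨F, h1, ?_⟩
  have e1 : ∑ y, (F.filter (fun e => G.att (G.inv e) = y)).card = F.card :=
    (Finset.card_eq_sum_card_fiberwise (f := fun e => G.att (G.inv e)) (s := F)
      (t := Finset.univ) (fun _ _ => Finset.mem_coe.2 (Finset.mem_univ _))).symm
  have e2 : ∑ y, (F.filter (fun e => G.att e = y)).card = F.card :=
    (Finset.card_eq_sum_card_fiberwise (f := fun e => G.att e) (s := F)
      (t := Finset.univ) (fun _ _ => Finset.mem_coe.2 (Finset.mem_univ _))).symm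
  have e3 : ∑ y, (F.filter (fun e => G.att e = y)).card = ∑ v, u v := by
    rw [e2, ← e1, Finset.sum_congr rfl (fun y _ => h1 y), htot]
  intro p
  exact (Finset.sum_eq_sum_iff_of_le (fun i _ => h2 i)).1 e3 p (Finset.mem_univ p)

/-- Finishing move: `K = P ∪ Y`, `f` valid outside, a b-matching inside between `P` and `Y`. -/
theorem finish (hGl : StmtGlue) (hBM : StmtBM) (G : DG V D) (hG : MinCex G) (P Y : Finset V)
    (hPY : Disjoint P Y) (f : D → Bool)
    (hf : G.ValidOn (P ∪ Y)ᶜ f) (ε : Bool) (dd u : V → ℕ)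
    (hdd : ∀ v, v ∉ Y → dd v = 0) (hu : ∀ v, v ∉ P → u v = 0)
    (htot : ∑ v ∈ Y, dd v = ∑ v ∈ P, u v)
    (cond : ∀ Z : Finset V, Z ⊆ Y → ∑ x ∈ Z, dd x ≤
      ∑ p ∈ P, min (u p) (Finset.univ.filter (fun e => G.att (G.inv e) ∈ Z ∧ G.att e = p)).card)
    (hP : ∀ p ∈ P,
      u p + ((G.darts p).filter (fun d => d ∈ G.bdry (P ∪ Y) ∧ f d = ε)).card = 1 ∨
      u p + ((G.darts p).filter (fun d => d ∈ G.bdry (P ∪ Y) ∧ f d = ε)).card + 1 = G.deg p)
    (hY : ∀ y ∈ Y,
      dd y + ((G.darts y).filter (fun d => d ∈ G.bdry (P ∪ Y) ∧ f d = ε)).card = 1 ∨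
      dd y + ((G.darts y).filter (fun d => d ∈ G.bdry (P ∪ Y) ∧ f d = ε)).card + 1 = G.deg y) :
    False := by
  have hsY : ∑ v, dd v = ∑ v ∈ Y, dd v :=
    (Finset.sum_subset (Finset.subset_univ Y) (fun x _ hx => hdd x hx)).symm
  have hsP : ∑ v, u v = ∑ v ∈ P, u v :=
    (Finset.sum_subset (Finset.subset_univ P) (fun x _ hx => hu x hx)).symm
  obtain ⟨F, hF1, hF2⟩ := realise hBM G dd u (by rw [hsY, hsP, htot]) (by
    intro Z
    have h1 : ∑ x ∈ Z, dd x = ∑ x ∈ Z ∩ Y, dd x := by
      symm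
      apply Finset.sum_subset Finset.inter_subset_left
      intro x hx hx'
      apply hdd
      intro h
      exact hx' (Finset.mem_inter.2 ⟨hx, h⟩)
    rw [h1]
    refine (cond (Z ∩ Y) Finset.inter_subset_right).trans ?_
    refine (Finset.sum_le_sum (fun p _ => ?_)).trans
      (Finset.sum_le_sum_of_subset (f := fun p => min (u p) (Finset.univ.filter
        (fun e => G.att (G.inv e) ∈ Z ∧ G.att e = p)).card) (Finset.subset_univ P))
    refine min_le_min le_rfl (Finset.card_le_card ?_)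
    intro e he
    simp only [Finset.mem_filter, Finset.mem_univ, true_and, Finset.mem_inter] at he ⊢
    exact ⟨he.1.1, he.2⟩)
  -- darts in F go from P to Y
  have hFP : ∀ e ∈ F, G.att e ∈ P := by
    intro e he
    by_contra h
    have h1 := hF2 (G.att e)
    rw [hu _ h, Finset.card_eq_zero] at h1
    have h2 : e ∈ F.filter (fun e' => G.att e' = G.att e) := Finset.mem_filter.2 ⟨he, rfl⟩
    rw [h1] at h2
    exact absurd h2 (Finset.notMem_empty _)
  have hFY : ∀ e ∈ F, G.att (G.inv e) ∈ Y := by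
    intro e he
    by_contra h
    have h1 := hF1 (G.att (G.inv e))
    rw [hdd _ h, Finset.card_eq_zero] at h1
    have h2 : e ∈ F.filter (fun e' => G.att (G.inv e') = G.att (G.inv e)) :=
      Finset.mem_filter.2 ⟨he, rfl⟩
    rw [h1] at h2
    exact absurd h2 (Finset.notMem_empty _)
  set FI : Finset D := Finset.univ.filter (fun d => d ∈ F ∨ G.inv d ∈ F) with hFI
  have memFI : ∀ d, d ∈ FI ↔ d ∈ F ∨ G.inv d ∈ F := by
    intro d; simp [hFI]
  have hKb : ∀ d ∈ FI, G.att d ∈ P ∪ Y ∧ G.att (G.inv d) ∈ P ∪ Y := by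
    intro d hd
    rw [memFI] at hd
    rcases hd with h | h
    · exact ⟨Finset.mem_union_left _ (hFP d h), Finset.mem_union_right _ (hFY d h)⟩
    · have h1 := hFP _ h
      have h2 := hFY _ h
      rw [G.inv_inv] at h2
      exact ⟨Finset.mem_union_right _ h2, Finset.mem_union_left _ h1⟩
  have hcard : ∀ v : V, ((G.darts v).filter
      (fun d => d ∈ FI ∨ (d ∈ G.bdry (P ∪ Y) ∧ f d = ε))).card =
      ((G.darts v).filter (fun d => d ∈ FI)).card +
      ((G.darts v).filter (fun d => d ∈ G.bdry (P ∪ Y) ∧ f d = ε)).card := by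
    intro v
    rw [Finset.filter_or, Finset.card_union_of_disjoint]
    rw [Finset.disjoint_left]
    intro d hd hd'
    rw [Finset.mem_filter] at hd hd'
    have h1 := (hKb d hd.2).2
    have h2 := (mem_bdry.1 hd'.2.1).2
    exact h2 h1
  have hcP : ∀ p ∈ P, ((G.darts p).filter (fun d => d ∈ FI)).card = u p := by
    intro p hp
    rw [← hF2 p]
    congr 1
    ext d
    simp only [Finset.mem_filter, mem_darts, memFI]
    constructor
    · rintro ⟨h1, h2 | h2⟩
      · exact ⟨h2, h1⟩
      · exfalso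
        have h3 := hFY _ h2
        rw [G.inv_inv, h1] at h3
        exact (Finset.disjoint_left.1 hPY hp) h3
    · rintro ⟨h1, h2⟩
      exact ⟨h2, Or.inl h1⟩
  have hcY : ∀ y ∈ Y, ((G.darts y).filter (fun d => d ∈ FI)).card = dd y := by
    intro y hy
    rw [← hF1 y]
    apply Finset.card_bij (fun d _ => G.inv d)
    · intro d hd
      simp only [Finset.mem_filter, mem_darts, memFI] at hd ⊢
      rcases hd with ⟨h1, h2 | h2⟩
      · exfalso
        have h3 := hFP _ h2
        rw [h1] at h3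
        exact (Finset.disjoint_left.1 hPY h3) hy
      · rw [G.inv_inv]
        exact ⟨h2, h1⟩
    · intro d _ d' _ h
      exact inv_inj G h
    · intro e he
      rw [Finset.mem_filter] at he
      refine ⟨G.inv e, ?_, G.inv_inv e⟩
      simp only [Finset.mem_filter, mem_darts, memFI, G.inv_inv]
      exact ⟨he.2, Or.inr he.1⟩
  refine glue_set hGl G hG (P ∪ Y) f hf ε FI (fun d hd => (hKb d hd).1) ?_ ?_
  · intro d hd
    rw [memFI] at hd ⊢
    rw [G.inv_inv]
    exact hd.symm
  · intro v hv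
    rw [hcard v]
    rcases Finset.mem_union.1 hv with h | h
    · rw [hcP v h]; exact hP v h
    · rw [hcY v h]; exact hY v h

/-- the gadget for 7 boundary darts: join `f6`, `f7`, and put a new 5-vertex on the others -/
theorem gadget57 (hGd : StmtGadget) (G : DG V D) (hG : MinCex G) (K : Finset V) (f6 f7 : D)
    (h6 : f6 ∈ G.bdry K) (h7 : f7 ∈ G.bdry K) (h67 : f6 ≠ f7) (hcard : (G.bdry K).card = 7)
    (hbig : 5 < (G.dartsOn K).card) :
    ∃ (f : D → Bool) (ε : Bool) (fs : D), G.ValidOn Kᶜ f ∧ fs ∈ G.bdry K ∧ fs ≠ f6 ∧ fs ≠ f7 ∧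
      f f6 = f f7 ∧ ∀ b ∈ G.bdry K, b ≠ f6 → b ≠ f7 → (f b = ε ↔ b = fs) := by
  set B : Finset D := ((G.bdry K).erase f6).erase f7 with hB
  have hBc : B.card = 5 := by
    rw [hB, Finset.card_erase_of_mem, Finset.card_erase_of_mem h6, hcard]
    rw [Finset.mem_erase]; exact ⟨h67.symm, h7⟩
  have memB : ∀ d, d ∈ B ↔ d ∈ G.bdry K ∧ d ≠ f6 ∧ d ≠ f7 := by
    intro d
    rw [hB, Finset.mem_erase, Finset.mem_erase]
    tauto
  let DW := {b // b ∈ B}
  let π : ({b // b ∈ G.bdry K} ⊕ DW) → ({b // b ∈ G.bdry K} ⊕ DW) := fun x =>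
    match x with
    | Sum.inl b => if hb6 : b.1 = f6 then Sum.inl ⟨f7, h7⟩ else if hb7 : b.1 = f7 then
        Sum.inl ⟨f6, h6⟩ else Sum.inr ⟨b.1, (memB b.1).2 ⟨b.2, hb6, hb7⟩⟩
    | Sum.inr b => Sum.inl ⟨b.1, ((memB b.1).1 b.2).1⟩
  have hπr : ∀ b : DW, π (Sum.inr b) = Sum.inl ⟨b.1, ((memB b.1).1 b.2).1⟩ := fun b => rfl
  have hπ6 : π (Sum.inl ⟨f6, h6⟩) = Sum.inl ⟨f7, h7⟩ := by simp [π]
  have hπ7 : π (Sum.inl ⟨f7, h7⟩) = Sum.inl ⟨f6, h6⟩ := by simp [π, h67.symm]
  have hπl : ∀ (b : D) (hb : b ∈ B), π (Sum.inl ⟨b, ((memB b).1 hb).1⟩) = Sum.inr ⟨b, hb⟩ := by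
    intro b hb
    have := (memB b).1 hb
    simp [π, this.2.1, this.2.2]
  have hcardDW : Fintype.card DW = 5 := by
    rw [← hBc]; exact Fintype.card_coe B
  have hfil : ∀ (w : Unit) (inst : DecidablePred (fun _ : DW => (() : Unit) = w)),
      (@Finset.filter DW (fun _ => (() : Unit) = w) inst Finset.univ).card = 5 := by
    intro w inst
    rw [← hcardDW, ← Finset.card_univ]
    congr 1
    ext d
    simp
  obtain ⟨f, g, hf, hg, hc⟩ := hGd V D G hG K Unit DW (fun _ => ())
    (fun w => Or.inr (Or.inr (hfil w _))) (by rw [hcardDW]; exact hbig) π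
    (by
      intro x
      rcases x with ⟨b, hb⟩ | ⟨b, hb⟩
      · by_cases hb6 : b = f6
        · subst hb6; rw [hπ6, hπ7]
        · by_cases hb7 : b = f7
          · subst hb7; rw [hπ7, hπ6]
          · have hbB : b ∈ B := (memB b).2 ⟨hb, hb6, hb7⟩
            rw [hπl b hbB, hπr]
      · rw [hπr, hπl b hb])
    (by
      intro x
      rcases x with ⟨b, hb⟩ | ⟨b, hb⟩
      · by_cases hb6 : b = f6
        · subst hb6; rw [hπ6]
          simp only [ne_eq, Sum.inl.injEq, Subtype.mk.injEq]
          exact fun h => h67 h.symm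
        · by_cases hb7 : b = f7
          · subst hb7; rw [hπ7]
            simp only [ne_eq, Sum.inl.injEq, Subtype.mk.injEq]
            exact h67
          · have hbB : b ∈ B := (memB b).2 ⟨hb, hb6, hb7⟩
            rw [hπl b hbB]
            simp
      · rw [hπr]; simp)
  have hfg : ∀ (b : D) (hb : b ∈ B), f b = g ⟨b, hb⟩ := by
    intro b hb
    have := hc (Sum.inr ⟨b, hb⟩)
    rw [hπr] at this
    simpa using this
  have h67f : f f6 = f f7 := by
    have := hc (Sum.inl ⟨f7, h7⟩)
    rw [hπ7] at this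
    simpa using this
  have hcount : ∀ ε : Bool, (B.filter (fun b => f b = ε)).card =
      (Finset.univ.filter (fun d : DW => g d = ε)).card := by
    intro ε
    symm
    apply Finset.card_bij (fun d _ => d.1)
    · intro d hd
      rw [Finset.mem_filter] at hd ⊢
      exact ⟨d.2, by rw [hfg d.1 d.2]; exact hd.2⟩
    · intro d _ d' _ h
      exact Subtype.ext h
    · intro b hb
      rw [Finset.mem_filter] at hb
      exact ⟨⟨b, hb.1⟩, by simp [← hfg b hb.1, hb.2], rfl⟩
  have hg' := hg ()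
  have hfil2 : ∀ (inst : DecidablePred (fun d : DW => (() : Unit) = () ∧ g d = true)),
      (@Finset.filter DW (fun d => (() : Unit) = () ∧ g d = true) inst Finset.univ).card =
      (B.filter (fun b => f b = true)).card := by
    intro inst
    rw [hcount]
    congr 1
    ext d
    simp
  rw [hfil2, hfil ()] at hg'
  have hsum : (B.filter (fun b => f b = true)).card + (B.filter (fun b => f b = false)).card = 5 := by
    have := Finset.card_filter_add_card_filter_not (s := B) (fun b => f b = true)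
    rw [hBc] at this
    simpa using this
  have hex : ∃ ε : Bool, (B.filter (fun b => f b = ε)).card = 1 := by
    rcases hg' with h | h
    · exact ⟨true, h⟩
    · exact ⟨false, by omega⟩
  obtain ⟨ε, hε⟩ := hex
  obtain ⟨fs, hfs⟩ := Finset.card_eq_one.1 hε
  have hfsB : fs ∈ B.filter (fun b => f b = ε) := by rw [hfs]; simp
  rw [Finset.mem_filter] at hfsB
  have hfs' := (memB fs).1 hfsB.1
  refine ⟨f, ε, fs, hf, hfs'.1, hfs'.2.1, hfs'.2.2, h67f, ?_⟩
  intro b hb hb6 hb7
  constructor
  · intro h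
    have : b ∈ B.filter (fun b => f b = ε) :=
      Finset.mem_filter.2 ⟨(memB b).2 ⟨hb, hb6, hb7⟩, h⟩
    rw [hfs] at this
    simpa using this
  · intro h
    rw [h]; exact hfsB.2

/-! ### neighbourhoods -/

/-- the neighbourhood of `P` -/
def nb (G : DG V D) (P : Finset V) : Finset V := (G.dartsOn P).image (fun d => G.att (G.inv d))

theorem mem_nb {G : DG V D} {P : Finset V} {y : V} :
    y ∈ nb G P ↔ ∃ d, G.att d ∈ P ∧ G.att (G.inv d) = y := by
  simp [nb, mem_dartsOn]

theorem nb_mono {G : DG V D} {P Q : Finset V} (h : P ⊆ Q) : nb G P ⊆ nb G Q := by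
  intro y hy
  rw [mem_nb] at hy ⊢
  obtain ⟨d, h1, h2⟩ := hy
  exact ⟨d, h h1, h2⟩

theorem nb_union {G : DG V D} (P Q : Finset V) : nb G (P ∪ Q) = nb G P ∪ nb G Q := by
  ext y
  simp only [mem_nb, Finset.mem_union]
  constructor
  · rintro ⟨d, h1 | h1, h2⟩
    · exact Or.inl ⟨d, h1, h2⟩
    · exact Or.inr ⟨d, h1, h2⟩
  · rintro (⟨d, h1, h2⟩ | ⟨d, h1, h2⟩)
    · exact ⟨d, Or.inl h1, h2⟩
    · exact ⟨d, Or.inr h1, h2⟩

/-- darts at `y` going to `P` -/
def toP (G : DG V D) (y : V) (P : Finset V) : Finset D :=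
  (G.darts y).filter (fun d => G.att (G.inv d) ∈ P)

theorem mem_toP {G : DG V D} {y : V} {P : Finset V} {d : D} :
    d ∈ toP G y P ↔ G.att d = y ∧ G.att (G.inv d) ∈ P := by
  simp [toP, mem_darts]

/-- counting the boundary of `P ∪ N` when all edges of `P` go to the independent set `N` -/
theorem card_bdry_bip (G : DG V D) (P N : Finset V) (hPN : Disjoint P N)
    (hP : ∀ d, G.att d ∈ P → G.att (G.inv d) ∈ N) (hN : G.Ind N) :
    (G.bdry (P ∪ N)).card + ∑ p ∈ P, G.deg p = ∑ y ∈ N, G.deg y := by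
  rw [← card_dartsOn, ← card_dartsOn]
  have h1 : (G.dartsOn N) = G.bdry (P ∪ N) ∪ (G.dartsOn P).image G.inv := by
    ext d
    simp only [Finset.mem_union, mem_dartsOn, mem_bdry, Finset.mem_image]
    constructor
    · intro h
      by_cases h2 : G.att (G.inv d) ∈ P
      · right
        exact ⟨G.inv d, h2, G.inv_inv d⟩
      · left
        refine ⟨Or.inr h, ?_⟩
        rintro (h3 | h3)
        · exact h2 h3
        · exact hN d h h3
    · rintro (⟨h2 | h2, h3⟩ | ⟨e, h2, h3⟩)
      · exact absurd (Or.inr (hP d h2)) h3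
      · exact h2
      · rw [← h3]
        exact hP e h2
  rw [h1, Finset.card_union_of_disjoint, Finset.card_image_of_injective]
  · intro d d' h
    exact inv_inj G h
  · rw [Finset.disjoint_left]
    intro d hd hd'
    rw [mem_bdry] at hd
    rw [Finset.mem_image] at hd'
    obtain ⟨e, he, he'⟩ := hd'
    apply hd.2
    rw [← he', G.inv_inv]
    exact Finset.mem_union_left _ (mem_dartsOn.1 he)

end Pool.Agent.H93.F14
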